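import Mathlib
import Pool.Agent.U792.FC.Core

/-!
The linear form `a ^ K P - f Q` for `a ^ n + b ^ n = (a + b) f ^ q`, `n = q K + 1`:
divisibility by powers of the divisors of `b` without prime factors `≡ 0, 1 (mod q)`.
-/

set_option autoImplicit false

namespace Pool.Agent.U792.SU

open Finset Pool.Agent.H374R2.T Pool.Agent.U792.FC

/-- the data -/
structure Dat (q n K : ℕ) (a b f : ℤ) : Prop where
  hq : q.Prime
  hn : n = q * K + 1
  hK : 0 < K
  hab : IsCoprime a b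
  ha : a ≠ 0
  hb : b ≠ 0
  hX : a + b ≠ 0
  heq : a ^ n + b ^ n = (a + b) * f ^ q

/-- the linear form -/
def lam (q K N : ℕ) (a b f : ℤ) : ℤ :=
  a ^ K * pf q N ((1 : ℕ) : ℤ) (a + b) b - f * pf q N (-((1 : ℕ) : ℤ)) (a + b) b

theorem lam_dvd {q n K : ℕ} {a b f : ℤ} (D : Dat q n K a b f) {d : ℕ} (hd : (d : ℤ) ∣ b)
    (hl : ∀ l : ℕ, l.Prime → l ∣ d → l ≠ q ∧ ¬ q ∣ l - 1) {W N : ℕ} (hWn : W ≤ n)
    (hWN : W ≤ 2 * N + 1) : (d : ℤ) ^ W ∣ lam q K N a b f := by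
  obtain ⟨hq, hn, hK, hab, ha, hb, hX0, heq⟩ := D
  have hn0 : 0 < n := by omega
  have hd0 : d ≠ 0 := by
    rintro rfl
    rw [Nat.cast_zero, zero_dvd_iff] at hd
    exact hb hd
  have hqd : Nat.Coprime q d := by
    rw [Nat.Prime.coprime_iff_not_dvd hq]
    intro h
    exact (hl q hq h).1 rfl
  have had : IsCoprime a (d : ℤ) := IsCoprime.of_isCoprime_of_dvd_right hab hd
  have hX : IsCoprime (a + b) (d : ℤ) := by
    obtain ⟨t, ht⟩ := hd
    rw [ht]
    exact (IsCoprime.add_mul_left_left_iff (x := a) (y := (d : ℤ)) (z := t)).2 had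
  have hfd : IsCoprime f (d : ℤ) := by
    have h1 : IsCoprime ((a + b) * f ^ q) (d : ℤ) := by
      rw [← heq]
      obtain ⟨t, ht⟩ := hd
      have e : b ^ n = (d : ℤ) * (t * b ^ (n - 1)) := by
        obtain ⟨m, rfl⟩ : ∃ m, n = m + 1 := ⟨n - 1, by omega⟩
        rw [Nat.add_sub_cancel, pow_succ']
        nth_rewrite 1 [ht]
        ring
      rw [e]
      exact (IsCoprime.add_mul_left_left_iff).2 (IsCoprime.pow_left had)
    exact (IsCoprime.pow_left_iff hq.pos).1 h1.of_mul_left_right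
  have hvd : IsCoprime (a ^ K) (d : ℤ) := IsCoprime.pow_left had
  unfold lam
  refine pf_congr (u := f) (v := a ^ K) hq.isPrimePow hqd hX hfd hvd ?_ ?_ ?_
  · intro l hl1 hl2
    have hlb : (l : ℤ) ∣ b := (Int.natCast_dvd_natCast.2 hl2).trans hd
    refine ⟨hlb, ?_⟩
    have hnd : ∀ t : ℤ, IsCoprime t (d : ℤ) → ¬ (l : ℤ) ∣ t := by
      intro t ht h
      have h1 : IsCoprime t (l : ℤ) := IsCoprime.of_isCoprime_of_dvd_right ht
        (Int.natCast_dvd_natCast.2 hl2)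
      have h2 := h1.isUnit_of_dvd' h (dvd_refl _)
      rw [Int.isUnit_iff_natAbs_eq, Int.natAbs_natCast] at h2
      exact hl1.one_lt.ne' h2
    refine root_eq (q := q) hl1 ?_ (hnd _ hfd) (hnd _ hvd) ?_
    · rw [Nat.Prime.coprime_iff_not_dvd hq]
      exact (hl l hl1 hl2).2
    · have h1 : (l : ℤ) ∣ (a + b) * (f ^ q - (a ^ K) ^ q) := by
        have e : (a + b) * (f ^ q - (a ^ K) ^ q) = b ^ n - b * a ^ (q * K) := by
          rw [mul_sub, ← heq, ← pow_mul, mul_comm K q, hn]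
          ring
        rw [e]
        exact dvd_sub (hlb.trans (dvd_pow_self _ hn0.ne')) (hlb.mul_right _)
      have hlp : Prime (l : ℤ) := Nat.prime_iff_prime_int.1 hl1
      rcases hlp.dvd_or_dvd h1 with h2 | h2
      · exact absurd h2 (hnd _ hX)
      · exact h2
  · calc (d : ℤ) ^ W ∣ b ^ W := pow_dvd_pow_of_dvd hd W
      _ ∣ b ^ (2 * N + 1) := pow_dvd_pow _ hWN
  · have e : f ^ q * (a + b) ^ 1 - (a ^ K) ^ q * (a + b - b) ^ 1 = b ^ n := by
      have : f ^ q * (a + b) = a ^ n + b ^ n := by rw [heq]; ring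
      rw [pow_one, this, hn, ← pow_mul, mul_comm K q]
      ring
    rw [e]
    exact (pow_dvd_pow_of_dvd hd W).trans (pow_dvd_pow _ hWn)

theorem lam_ne {q n K : ℕ} {a b f : ℤ} (D : Dat q n K a b f) (N : ℕ) :
    lam q K N a b f ≠ 0 ∨ lam q K (N + 1) a b f ≠ 0 := by
  obtain ⟨hq, hn, hK, hab, ha, hb, hX0, heq⟩ := D
  by_contra hcon
  push Not at hcon
  obtain ⟨h1, h2⟩ := hcon
  unfold lam at h1 h2
  have h3 := pf_ne (n := N) (X := a + b) hq.isPrimePow (j := 1) one_pos hq.one_lt hb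
  apply h3
  have hv : a ^ K ≠ 0 := pow_ne_zero _ ha
  apply mul_left_cancel₀ hv
  linear_combination pf q (N + 1) (-((1 : ℕ) : ℤ)) (a + b) b * h1 -
    pf q N (-((1 : ℕ) : ℤ)) (a + b) b * h2

end Pool.Agent.U792.SU
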