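import Mathlib
import Pool.Agent.U792.SU.Core
import Pool.Agent.U792.FC.Main

/-!
Upper bounds for the linear form and the main inequality.
-/

set_option autoImplicit false

namespace Pool.Agent.U792.SU

open Finset Pool.Agent.H374R2.T Pool.Agent.U792.FC

theorem abs_f_le {q n K : ℕ} {a b f : ℤ} (D : Dat q n K a b f) (hno : Odd n) {M : ℝ} (hM : 1 ≤ M)
    (ha : |(a : ℝ)| ≤ M) (hb : |(b : ℝ)| ≤ M) : |(f : ℝ)| ≤ 2 ^ (K + 1) * M ^ K := by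
  obtain ⟨hq, hn, hK, hab, ha0, hb0, hX0, heq⟩ := D
  have hM0 : 0 < M := by linarith
  have hXR : (a : ℝ) + b ≠ 0 := by exact_mod_cast hX0
  have heR : (a : ℝ) ^ n + (b : ℝ) ^ n = (a + b) * (f : ℝ) ^ q := by exact_mod_cast heq
  have h1 := (Commute.all (a : ℝ) (-b)).geom_sum₂_mul n
  rw [hno.neg_pow, sub_neg_eq_add, sub_neg_eq_add, heR] at h1
  have h2 : (f : ℝ) ^ q = ∑ i ∈ range n, (a : ℝ) ^ i * (-(b : ℝ)) ^ (n - 1 - i) := by
    apply mul_left_cancel₀ hXR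
    rw [← h1]
    ring
  have h3 : |(f : ℝ)| ^ q ≤ n * M ^ (n - 1) := by
    rw [← abs_pow, h2]
    refine (abs_sum_le_sum_abs _ _).trans ?_
    have h4 : ∀ i ∈ range n, |(a : ℝ) ^ i * (-(b : ℝ)) ^ (n - 1 - i)| ≤ M ^ (n - 1) := by
      intro i hi
      rw [mem_range] at hi
      rw [abs_mul, abs_pow, abs_pow, abs_neg]
      calc |(a : ℝ)| ^ i * |(b : ℝ)| ^ (n - 1 - i) ≤ M ^ i * M ^ (n - 1 - i) := by gcongr
        _ = M ^ (n - 1) := by rw [← pow_add]; congr 1; omega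
    refine (sum_le_sum h4).trans ?_
    rw [sum_const, card_range, nsmul_eq_mul]
  have h5 : |(f : ℝ)| ^ q ≤ (2 ^ (K + 1) * M ^ K) ^ q := by
    refine h3.trans ?_
    rw [mul_pow, ← pow_mul, ← pow_mul, show n - 1 = K * q by rw [hn, Nat.add_sub_cancel, mul_comm]]
    refine mul_le_mul_of_nonneg_right ?_ (by positivity)
    have h6 : n < 2 ^ n := Nat.lt_two_pow_self
    have h7 : (n : ℝ) ≤ 2 ^ n := by exact_mod_cast h6.le
    refine h7.trans (pow_le_pow_right₀ (by norm_num) ?_)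
    have := hq.one_lt
    rw [hn]
    nlinarith
  exact le_of_pow_le_pow_left₀ hq.ne_zero (by positivity) h5

/-- the bound without closeness -/
theorem boundA {q n K : ℕ} {a b f : ℤ} (D : Dat q n K a b f) (hno : Odd n) {M : ℕ} (hM : 1 ≤ M)
    (ha : |a| ≤ M) (hb : |b| ≤ M) (N : ℕ) :
    |((lam q K N a b f : ℤ) : ℝ)| ≤
      2 ^ (K + 3) * (16 * (q : ℝ) ^ 2) ^ N * (M : ℝ) ^ N * (M : ℝ) ^ K := by
  have hMR : (1 : ℝ) ≤ M := by exact_mod_cast hM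
  have haR : |(a : ℝ)| ≤ M := by exact_mod_cast ha
  have hbR : |(b : ℝ)| ≤ M := by exact_mod_cast hb
  have hf := abs_f_le D hno hMR haR hbR
  have hX : |a + b| ≤ 2 * (M : ℤ) := (abs_add_le _ _).trans (by linarith)
  have hT : |b| ≤ 2 * (M : ℤ) := by
    have : (0 : ℤ) ≤ M := Int.natCast_nonneg M
    linarith
  have hjq : |((1 : ℕ) : ℤ)| ≤ q := by
    rw [Nat.abs_cast]
    exact_mod_cast D.hq.one_lt.le
  have hjq' : |(-((1 : ℕ) : ℤ))| ≤ q := by rwa [abs_neg]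
  have h1 := pf_size (n := N) D.hq.isPrimePow hjq hX hT
  have h2 := pf_size (n := N) D.hq.isPrimePow hjq' hX hT
  have e3 : (2 * (8 * (q : ℤ) ^ 2) ^ N * (2 * (M : ℤ)) ^ N : ℤ) =
      2 * (16 * (q : ℤ) ^ 2) ^ N * (M : ℤ) ^ N := by
    rw [mul_pow 2 (M : ℤ) N, show (16 : ℤ) * (q : ℤ) ^ 2 = (8 * (q : ℤ) ^ 2) * 2 by ring,
      mul_pow _ 2 N]
    ring
  rw [e3] at h1 h2
  have h1' : |((pf q N ((1 : ℕ) : ℤ) (a + b) b : ℤ) : ℝ)| ≤
      2 * (16 * (q : ℝ) ^ 2) ^ N * (M : ℝ) ^ N := by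
    exact_mod_cast h1
  have h2' : |((pf q N (-((1 : ℕ) : ℤ)) (a + b) b : ℤ) : ℝ)| ≤
      2 * (16 * (q : ℝ) ^ 2) ^ N * (M : ℝ) ^ N := by
    exact_mod_cast h2
  have e4 : ((lam q K N a b f : ℤ) : ℝ) = (a : ℝ) ^ K *
      ((pf q N ((1 : ℕ) : ℤ) (a + b) b : ℤ) : ℝ) -
        (f : ℝ) * ((pf q N (-((1 : ℕ) : ℤ)) (a + b) b : ℤ) : ℝ) := by
    unfold lam
    rw [Int.cast_sub, Int.cast_mul, Int.cast_mul, Int.cast_pow]
  rw [e4]
  set B : ℝ := 2 * (16 * (q : ℝ) ^ 2) ^ N * (M : ℝ) ^ N with hB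
  have hB0 : 0 ≤ B := by positivity
  calc _ ≤ |(a : ℝ) ^ K * ((pf q N ((1 : ℕ) : ℤ) (a + b) b : ℤ) : ℝ)| +
        |(f : ℝ) * ((pf q N (-((1 : ℕ) : ℤ)) (a + b) b : ℤ) : ℝ)| := abs_sub _ _
    _ ≤ (M : ℝ) ^ K * B + (2 ^ (K + 1) * (M : ℝ) ^ K) * B := by
        rw [abs_mul, abs_mul, abs_pow]
        gcongr
    _ = (1 + 2 ^ (K + 1)) * ((M : ℝ) ^ K * B) := by ring
    _ ≤ 2 ^ (K + 2) * ((M : ℝ) ^ K * B) := by
        refine mul_le_mul_of_nonneg_right ?_ (by positivity)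
        have : (1 : ℝ) ≤ 2 ^ (K + 1) := one_le_pow₀ (by norm_num)
        rw [pow_succ (2 : ℝ) (K + 1)]
        linarith
    _ = _ := by rw [hB]; ring

/-- the bound with closeness -/
theorem boundB {q n K : ℕ} {a b f : ℤ} (D : Dat q n K a b f) (hqo : Odd q) (ha : 0 < a)
    (hb : 4 * |b| ≤ a) {N : ℕ} (hN : 2 * N + 1 ≤ n) :
    |((lam q K N a b f : ℤ) : ℝ)| ≤
      8 * (18 * (q : ℝ) ^ 2) ^ N * (a : ℝ) ^ N * (a : ℝ) ^ K *
        (|(b : ℝ)| / a) ^ (2 * N + 1) := by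
  have haR : (0 : ℝ) < a := by exact_mod_cast ha
  have hbR : 4 * |(b : ℝ)| ≤ a := by exact_mod_cast hb
  have hq := D.hq
  have hq0 : (q : ℝ) ≠ 0 := by exact_mod_cast hq.ne_zero
  have hqp : (0 : ℝ) < q := by exact_mod_cast hq.pos
  set X : ℤ := a + b with hX
  have hXR : (X : ℝ) = a + b := by rw [hX]; push_cast; ring
  have hb1 := abs_le.1 (show |b| ≤ |b| from le_rfl)
  have hbR1 := abs_le.1 (show |(b : ℝ)| ≤ |(b : ℝ)| from le_rfl)
  have hX0 : 0 < X := by rw [hX]; have := abs_nonneg b; linarith [hb1.1]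
  have hX0R : (0 : ℝ) < X := by exact_mod_cast hX0
  have hXlo : 3 / 4 * (a : ℝ) ≤ X := by rw [hXR]; linarith [hbR1.1]
  have hXhi : (X : ℝ) ≤ 5 / 4 * a := by rw [hXR]; linarith [hbR1.2]
  have h3T : 3 * |b| ≤ X := by rw [hX]; linarith [hb1.1]
  have hn0 : 0 < n := by rw [D.hn]; omega
  -- the function
  set th : ℝ := ((a : ℝ) / X) ^ (((1 : ℕ) : ℝ) / q) with hth
  have hth0 : 0 < th := by positivity
  have hthq : th ^ q = (a : ℝ) / X := by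
    rw [hth, ← Real.rpow_natCast, ← Real.rpow_mul (by positivity)]
    rw [Nat.cast_one, one_div, inv_mul_cancel₀ hq0, Real.rpow_one]
  set v : ℝ := (a : ℝ) ^ K with hv
  have hv0 : 0 < v := by positivity
  set A : ℝ := v * th with hA
  have hA0 : 0 < A := by positivity
  have hAq : A ^ q * X = (a : ℝ) ^ n := by
    rw [hA, mul_pow, hthq, hv, ← pow_mul, D.hn, mul_comm K q, pow_succ]
    field_simp
  have hfq : (f : ℝ) ^ q * X = (a : ℝ) ^ n + (b : ℝ) ^ n := by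
    have : (a : ℝ) ^ n + (b : ℝ) ^ n = (a + b) * (f : ℝ) ^ q := by exact_mod_cast D.heq
    rw [this, hXR]
    ring
  have hbn : |(b : ℝ)| ^ n < (a : ℝ) ^ n := by
    refine pow_lt_pow_left₀ ?_ (abs_nonneg _) hn0.ne'
    linarith [abs_nonneg (b : ℝ)]
  have hf0 : (0 : ℝ) < f := by
    refine (hqo.pow_pos_iff).1 ?_
    have h1 := neg_abs_le ((b : ℝ) ^ n)
    rw [abs_pow] at h1
    have h2 : 0 < (f : ℝ) ^ q * X := by rw [hfq]; linarith
    exact (pos_iff_pos_of_mul_pos h2).2 hX0R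
  have hth2 : th ≤ 4 / 3 := by
    have h1 : (a : ℝ) / X ≤ 4 / 3 := by
      rw [div_le_iff₀ hX0R]
      linarith
    calc th ≤ (4 / 3 : ℝ) ^ (((1 : ℕ) : ℝ) / q) := Real.rpow_le_rpow (by positivity) h1 (by positivity)
      _ ≤ (4 / 3 : ℝ) ^ (1 : ℝ) := by
        apply Real.rpow_le_rpow_of_exponent_le (by norm_num)
        rw [div_le_one hqp]
        exact_mod_cast hq.one_lt.le
      _ = 4 / 3 := Real.rpow_one _
  set ρ : ℝ := |(b : ℝ)| / a with hρ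
  have hρ0 : 0 ≤ ρ := by positivity
  have hρ1 : ρ ≤ 1 := by
    rw [hρ, div_le_one haR]
    linarith [abs_nonneg (b : ℝ)]
  have hfA : |A - f| ≤ A * ρ ^ n := by
    have h1 := abs_sub_le_of_pow hq.pos hA0 hf0.le
    have h2 : (|A - f| * A ^ q) * X ≤ (A * |A ^ q - (f : ℝ) ^ q|) * X :=
      mul_le_mul_of_nonneg_right h1 hX0R.le
    have h3 : |A ^ q - (f : ℝ) ^ q| * X = |(b : ℝ)| ^ n := by
      have h4 : |A ^ q - (f : ℝ) ^ q| * X = |(A ^ q - (f : ℝ) ^ q) * X| := by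
        rw [abs_mul, abs_of_pos hX0R]
      rw [h4, sub_mul, hAq, hfq, show (a : ℝ) ^ n - ((a : ℝ) ^ n + (b : ℝ) ^ n) = -(b : ℝ) ^ n by
        ring, abs_neg, abs_pow]
    rw [mul_assoc, hAq, mul_assoc, h3] at h2
    rw [hρ, div_pow, ← mul_div_assoc, le_div_iff₀ (by positivity)]
    exact h2
  -- the forms
  have hjq : |(-((1 : ℕ) : ℤ))| ≤ q := by
    rw [abs_neg, Nat.abs_cast]
    exact_mod_cast hq.one_lt.le
  have hTX : |b| ≤ X := by have := abs_nonneg b; linarith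
  have h2 := pf_size (n := N) (s := -((1 : ℕ) : ℤ)) (X := X) (T := b) (M := X) hq.isPrimePow hjq
    (abs_of_pos hX0).le hTX
  have h2' : |((pf q N (-((1 : ℕ) : ℤ)) X b : ℤ) : ℝ)| ≤ 2 * (8 * (q : ℝ) ^ 2) ^ N * (X : ℝ) ^ N := by
    exact_mod_cast h2
  have h1 := pf_real (n := N) (X := X) (T := b) (j := 1) hq.isPrimePow one_pos hq.one_lt hX0 h3T
  have e1 : 1 - (b : ℝ) / X = a / X := by
    rw [hXR]
    have : (a : ℝ) + b ≠ 0 := by rw [← hXR]; exact hX0R.ne'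
    field_simp
    ring
  rw [e1, ← hth] at h1
  have hbX : |(b : ℝ) / X| ≤ 4 / 3 * ρ := by
    rw [abs_div, abs_of_pos hX0R, hρ, div_le_iff₀ hX0R]
    have h5 : 4 / 3 * (|(b : ℝ)| / a) * (3 / 4 * a) = |(b : ℝ)| := by field_simp
    calc |(b : ℝ)| = 4 / 3 * (|(b : ℝ)| / a) * (3 / 4 * a) := h5.symm
      _ ≤ 4 / 3 * (|(b : ℝ)| / a) * X := by gcongr
  set P : ℝ := ((pf q N ((1 : ℕ) : ℤ) X b : ℤ) : ℝ) with hP
  set Q : ℝ := ((pf q N (-((1 : ℕ) : ℤ)) X b : ℤ) : ℝ) with hQ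
  have e4 : ((lam q K N a b f : ℤ) : ℝ) = v * (P - th * Q) + (A - f) * Q := by
    unfold lam
    rw [hA, hP, hQ, hv, ← hX, Int.cast_sub, Int.cast_mul, Int.cast_mul, Int.cast_pow]
    ring
  rw [e4]
  have hpn : ρ ^ n ≤ ρ ^ (2 * N + 1) := pow_le_pow_of_le_one hρ0 hρ1 hN
  have hXN : (X : ℝ) ^ N ≤ (5 / 4) ^ N * (a : ℝ) ^ N := by
    rw [← mul_pow]
    exact pow_le_pow_left₀ hX0R.le hXhi N
  set G : ℝ := (8 * (q : ℝ) ^ 2) ^ N * ((5 / 4) ^ N * (a : ℝ) ^ N) with hG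
  have hG0 : 0 ≤ G := by positivity
  have hAv : A ≤ 4 / 3 * v := by
    rw [hA]
    nlinarith
  calc |v * (P - th * Q) + (A - f) * Q| ≤ |v * (P - th * Q)| + |(A - f) * Q| := abs_add_le _ _
    _ = v * |P - th * Q| + |A - f| * |Q| := by
        rw [abs_mul v, abs_mul (A - f), abs_of_pos hv0]
    _ ≤ v * (2 * (8 * (q : ℝ) ^ 2) ^ N * ((5 / 4) ^ N * (a : ℝ) ^ N) *
          (4 / 3 * ρ) ^ (2 * N + 1)) +
        (4 / 3 * v * ρ ^ (2 * N + 1)) * (2 * (8 * (q : ℝ) ^ 2) ^ N * ((5 / 4) ^ N * (a : ℝ) ^ N)) := by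
        have k1 : |P - th * Q| ≤ 2 * (8 * (q : ℝ) ^ 2) ^ N * ((5 / 4) ^ N * (a : ℝ) ^ N) *
          (4 / 3 * ρ) ^ (2 * N + 1) := by
          refine h1.trans ?_
          gcongr
        have k2 : |Q| ≤ 2 * (8 * (q : ℝ) ^ 2) ^ N * ((5 / 4) ^ N * (a : ℝ) ^ N) := by
          refine h2'.trans ?_
          gcongr
        have k3 : |A - f| ≤ 4 / 3 * v * ρ ^ (2 * N + 1) := hfA.trans (by gcongr)
        gcongr
    _ = v * G * ρ ^ (2 * N + 1) * (2 * (4 / 3) ^ (2 * N + 1) + 8 / 3) := by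
        rw [hG, mul_pow (4 / 3 : ℝ) ρ]
        ring
    _ ≤ v * G * ρ ^ (2 * N + 1) * (8 * (16 / 9) ^ N) := by
        have k4 : (2 * (4 / 3) ^ (2 * N + 1) + 8 / 3 : ℝ) ≤ 8 * (16 / 9) ^ N := by
          have k5 : ((4 / 3 : ℝ)) ^ (2 * N + 1) = 4 / 3 * (16 / 9) ^ N := by
            rw [pow_succ, pow_mul]
            norm_num
            ring
          have k6 : (1 : ℝ) ≤ (16 / 9) ^ N := one_le_pow₀ (by norm_num)
          rw [k5]
          linarith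
        gcongr
    _ = 8 * (v * (a : ℝ) ^ N * ρ ^ (2 * N + 1)) * ((8 * (q : ℝ) ^ 2) * (5 / 4) * (16 / 9)) ^ N := by
        rw [hG, mul_pow _ (16 / 9 : ℝ) N, mul_pow _ (5 / 4 : ℝ) N]
        ring
    _ ≤ 8 * (v * (a : ℝ) ^ N * ρ ^ (2 * N + 1)) * (18 * (q : ℝ) ^ 2) ^ N := by
        refine mul_le_mul_of_nonneg_left (pow_le_pow_left₀ (by positivity) ?_ N) (by positivity)
        have := sq_nonneg (q : ℝ)
        linarith
    _ = _ := by ring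

end Pool.Agent.U792.SU
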