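import Mathlib
import Pool.Agent.U792.SU.Real

/-!
The main inequality: `max (|a|, |b|) ^ (1/2 - 1/q) ≤ 32 q e` for `b = ± d e`, where `d` has no prime
factor `≡ 0, 1 (mod q)`, if `a ^ n + b ^ n = (a + b) f ^ q`, `n = q K + 1`.
-/

set_option autoImplicit false

namespace Pool.Agent.U792.SU

open Finset Pool.Agent.H374R2.T Pool.Agent.U792.FC

theorem Dat.neg {q n K : ℕ} {a b f : ℤ} (D : Dat q n K a b f) (hno : Odd n) :
    Dat q n K (-a) (-b) f := by
  obtain ⟨hq, hn, hK, hab, ha, hb, hX, heq⟩ := D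
  refine ⟨hq, hn, hK, hab.neg_neg, neg_ne_zero.2 ha, neg_ne_zero.2 hb, ?_, ?_⟩
  · intro h
    apply hX
    linarith
  · rw [hno.neg_pow, hno.neg_pow]
    linear_combination (-1 : ℤ) * heq

theorem starA {q n K : ℕ} {a b f : ℤ} (D : Dat q n K a b f) (hno : Odd n) {M d e N : ℕ} (hM : 1 ≤ M)
    (ha : |a| ≤ M) (hb : |b| ≤ M) (hbM : (M : ℤ) ≤ 4 * |b|) (hde : b.natAbs = d * e)
    (hN : 2 * N + 1 ≤ n) (hl : ∀ l : ℕ, l.Prime → l ∣ d → l ≠ q ∧ ¬ q ∣ l - 1)
    (hne : lam q K N a b f ≠ 0) :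
    (M : ℝ) ^ (N + 1) ≤
      2 ^ (K + 3) * (16 * (q : ℝ) ^ 2) ^ N * (4 * (e : ℝ)) ^ (2 * N + 1) * (M : ℝ) ^ K := by
  have hMR : (1 : ℝ) ≤ M := by exact_mod_cast hM
  have hdb : (d : ℤ) ∣ b := by
    rw [Int.natCast_dvd, hde]
    exact dvd_mul_right _ _
  have h1 := low hne (lam_dvd D hdb hl hN le_rfl)
  have h2 := boundA D hno hM ha hb N
  have hbe : |(b : ℝ)| = d * e := by
    rw [← Int.cast_abs, Int.abs_eq_natAbs, hde]
    push_cast
    rfl
  have h3 : (M : ℝ) ≤ 4 * (d * e) := by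
    rw [← hbe]
    exact_mod_cast hbM
  set A : ℝ := (M : ℝ) ^ K with hA
  have h4 : (M : ℝ) ^ (2 * N + 1) ≤ (4 * (e : ℝ)) ^ (2 * N + 1) *
      (2 ^ (K + 3) * (16 * (q : ℝ) ^ 2) ^ N * (M : ℝ) ^ N * A) := by
    calc (M : ℝ) ^ (2 * N + 1) ≤ (4 * (d * e)) ^ (2 * N + 1) := by gcongr
      _ = (4 * (e : ℝ)) ^ (2 * N + 1) * (d : ℝ) ^ (2 * N + 1) := by rw [← mul_pow]; ring
      _ ≤ _ := by
          gcongr
          exact h1.trans h2
  have hMN : (0 : ℝ) < (M : ℝ) ^ N := by positivity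
  refine le_of_mul_le_mul_right (a := (M : ℝ) ^ N) ?_ hMN
  calc (M : ℝ) ^ (N + 1) * (M : ℝ) ^ N = (M : ℝ) ^ (2 * N + 1) := by rw [← pow_add]; ring_nf
    _ ≤ _ := h4
    _ = _ := by ring

theorem starB {q n K : ℕ} {a b f : ℤ} (D : Dat q n K a b f) (hqo : Odd q) (ha : 0 < a)
    (hb : 4 * |b| ≤ a) {d e N : ℕ} (hde : b.natAbs = d * e)
    (hN : 2 * N + 1 ≤ n) (hl : ∀ l : ℕ, l.Prime → l ∣ d → l ≠ q ∧ ¬ q ∣ l - 1)
    (hne : lam q K N a b f ≠ 0) :
    (a : ℝ) ^ (N + 1) ≤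
      2 ^ (K + 3) * (16 * (q : ℝ) ^ 2) ^ N * (4 * (e : ℝ)) ^ (2 * N + 1) * (a : ℝ) ^ K := by
  have haR : (0 : ℝ) < a := by exact_mod_cast ha
  have hdb : (d : ℤ) ∣ b := by
    rw [Int.natCast_dvd, hde]
    exact dvd_mul_right _ _
  have h1 := low hne (lam_dvd D hdb hl hN le_rfl)
  have h2 := boundB D hqo ha hb hN
  have hbe : |(b : ℝ)| = d * e := by
    rw [← Int.cast_abs, Int.abs_eq_natAbs, hde]
    push_cast
    rfl
  have hb0 : (0 : ℝ) < |(b : ℝ)| := abs_pos.2 (by exact_mod_cast D.hb)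
  set A : ℝ := (a : ℝ) ^ K with hA
  have hA0 : 0 ≤ A := by positivity
  have h3 := h1.trans h2
  have h4 : |(b : ℝ)| ^ (2 * N + 1) ≤ (e : ℝ) ^ (2 * N + 1) *
      (8 * (18 * (q : ℝ) ^ 2) ^ N * (a : ℝ) ^ N * A * (|(b : ℝ)| / a) ^ (2 * N + 1)) := by
    calc |(b : ℝ)| ^ (2 * N + 1) = (e : ℝ) ^ (2 * N + 1) * (d : ℝ) ^ (2 * N + 1) := by
          rw [hbe, ← mul_pow, mul_comm]
      _ ≤ _ := by gcongr
  have h5 : (a : ℝ) ^ (2 * N + 1) ≤ (e : ℝ) ^ (2 * N + 1) *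
      (8 * (18 * (q : ℝ) ^ 2) ^ N * (a : ℝ) ^ N * A) := by
    refine le_of_mul_le_mul_right (a := |(b : ℝ)| ^ (2 * N + 1)) ?_ (by positivity)
    have h6 := mul_le_mul_of_nonneg_left h4 (show (0 : ℝ) ≤ (a : ℝ) ^ (2 * N + 1) by positivity)
    refine h6.trans (le_of_eq ?_)
    rw [div_pow]
    have : (a : ℝ) ^ (2 * N + 1) ≠ 0 := by positivity
    field_simp
  have haN : (0 : ℝ) < (a : ℝ) ^ N := by positivity
  refine le_of_mul_le_mul_right (a := (a : ℝ) ^ N) ?_ haN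
  calc (a : ℝ) ^ (N + 1) * (a : ℝ) ^ N = (a : ℝ) ^ (2 * N + 1) := by rw [← pow_add]; ring_nf
    _ ≤ _ := h5
    _ = (8 * A * (a : ℝ) ^ N) * ((18 * (q : ℝ) ^ 2) ^ N * (e : ℝ) ^ (2 * N + 1)) := by ring
    _ ≤ (2 ^ (K + 3) * A * (a : ℝ) ^ N) * ((16 * (q : ℝ) ^ 2) ^ N * (4 * (e : ℝ)) ^ (2 * N + 1)) := by
        have e8 : (8 : ℝ) ≤ 2 ^ (K + 3) := by
          calc (8 : ℝ) = 2 ^ 3 := by norm_num
            _ ≤ 2 ^ (K + 3) := pow_le_pow_right₀ (by norm_num) (by omega)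
        refine mul_le_mul (by gcongr) ?_ (by positivity) (by positivity)
        have e0 : (4 : ℝ) ^ (2 * N + 1) = 4 * 16 ^ N := by
          rw [pow_succ, pow_mul]
          norm_num
          ring
        have e1 : (4 * (e : ℝ)) ^ (2 * N + 1) = 4 * 16 ^ N * (e : ℝ) ^ (2 * N + 1) := by
          rw [mul_pow, e0]
        have e2 : (18 * (q : ℝ) ^ 2) ^ N ≤ (16 * (q : ℝ) ^ 2) ^ N * 16 ^ N := by
          rw [← mul_pow]
          refine pow_le_pow_left₀ (by positivity) ?_ N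
          have := sq_nonneg (q : ℝ)
          linarith
        rw [e1]
        have e3 : (0 : ℝ) ≤ (e : ℝ) ^ (2 * N + 1) := by positivity
        have e4 : (0 : ℝ) ≤ (16 * (q : ℝ) ^ 2) ^ N * 16 ^ N := by positivity
        calc (18 * (q : ℝ) ^ 2) ^ N * (e : ℝ) ^ (2 * N + 1) ≤
              ((16 * (q : ℝ) ^ 2) ^ N * 16 ^ N) * (e : ℝ) ^ (2 * N + 1) := by gcongr
          _ ≤ 4 * (((16 * (q : ℝ) ^ 2) ^ N * 16 ^ N) * (e : ℝ) ^ (2 * N + 1)) := by
              have := mul_nonneg e4 e3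
              linarith
          _ = _ := by ring
    _ = _ := by ring

/-- from the star inequality to the final one -/
theorem fin_of {q n K N e : ℕ} {M : ℝ} (hq : 3 ≤ q) (hn : n = q * K + 1) (hK : 2 ≤ K)
    (hN : n ≤ 2 * N + 3) (hM : 1 ≤ M)
    (h : M ^ (N + 1) ≤ 2 ^ (K + 3) * (16 * (q : ℝ) ^ 2) ^ N * (4 * (e : ℝ)) ^ (2 * N + 1) *
      M ^ K) : M ^ ((1 : ℝ) / 2 - 1 / q) ≤ 32 * q * e := by
  have hM0 : 0 < M := by linarith
  have hq3 : (3 : ℝ) ≤ q := by exact_mod_cast hq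
  have hq0 : (0 : ℝ) < q := by linarith
  have hqK : 3 * K ≤ q * K := Nat.mul_le_mul_right K hq
  have hNK : K ≤ N + 1 := by omega
  have h1 : M ^ (N + 1 - K) ≤ (32 * q * e) ^ (2 * N + 1) := by
    have h2 : M ^ (N + 1) = M ^ (N + 1 - K) * M ^ K := by rw [← pow_add]; congr 1; omega
    rw [h2] at h
    have h3 := le_of_mul_le_mul_right h (by positivity)
    refine h3.trans ?_
    have e1 : (16 * (q : ℝ) ^ 2) ^ N = (4 * (q : ℝ)) ^ (2 * N) := by rw [pow_mul]; ring_nf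
    have e2 : (4 * (q : ℝ)) ^ (2 * N) ≤ (4 * (q : ℝ)) ^ (2 * N + 1) :=
      pow_le_pow_right₀ (by linarith) (Nat.le_succ _)
    have e3 : (2 : ℝ) ^ (K + 3) ≤ 2 ^ (2 * N + 1) :=
      pow_le_pow_right₀ (by norm_num) (by omega)
    calc 2 ^ (K + 3) * (16 * (q : ℝ) ^ 2) ^ N * (4 * (e : ℝ)) ^ (2 * N + 1) ≤
          2 ^ (2 * N + 1) * (4 * (q : ℝ)) ^ (2 * N + 1) * (4 * (e : ℝ)) ^ (2 * N + 1) := by
          rw [e1]
          gcongr
      _ = _ := by rw [← mul_pow, ← mul_pow]; ring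
  have h2 : (M ^ ((1 : ℝ) / 2 - 1 / q)) ^ (2 * N + 1) ≤ (32 * q * e) ^ (2 * N + 1) := by
    rw [← Real.rpow_natCast, ← Real.rpow_mul hM0.le]
    refine le_trans ?_ h1
    rw [← Real.rpow_natCast M (N + 1 - K)]
    refine Real.rpow_le_rpow_of_exponent_le hM ?_
    rw [Nat.cast_sub hNK]
    push_cast
    have h3 : (q : ℝ) * K ≤ 2 * N + 2 := by
      have : q * K ≤ 2 * N + 2 := by omega
      exact_mod_cast this
    have h4 : ((1 : ℝ) / 2 - 1 / q) * (2 * N + 1) = N + 1 / 2 - (2 * N + 1) / q := by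
      field_simp
    rw [h4]
    have h5 : (K : ℝ) - 1 / q ≤ (2 * N + 1) / q := by
      rw [le_div_iff₀ hq0]
      have h6 : ((K : ℝ) - 1 / q) * q = q * K - 1 := by field_simp
      rw [h6]
      linarith
    have h6 : (1 : ℝ) / q ≤ 1 / 3 := by
      rw [div_le_div_iff₀ hq0 (by norm_num)]
      linarith
    linarith
  exact le_of_pow_le_pow_left₀ (by omega) (by positivity) h2

/-- **The main inequality.** -/
theorem main {q n K : ℕ} {a b f : ℤ} (D : Dat q n K a b f) (hq3 : 3 ≤ q) (hno : Odd n)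
    {M : ℕ} (hM : M = max a.natAbs b.natAbs) {d e : ℕ} (hde : b.natAbs = d * e)
    (hl : ∀ l : ℕ, l.Prime → l ∣ d → l ≠ q ∧ ¬ q ∣ l - 1) :
    (M : ℝ) ^ ((1 : ℝ) / 2 - 1 / q) ≤ 32 * q * e := by
  have hqo : Odd q := D.hq.odd_of_ne_two (by omega)
  have hn := D.hn
  have hK0 := D.hK
  have hKe : Even K := by
    rcases Nat.even_or_odd K with h | h
    · exact h
    · exfalso
      have h1 : Odd (q * K) := hqo.mul h
      rw [hn] at hno
      obtain ⟨s, hs⟩ := h1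
      obtain ⟨t, ht⟩ := hno
      omega
  have hK : 2 ≤ K := by
    obtain ⟨t, ht⟩ := hKe
    omega
  have hqK : 3 * K ≤ q * K := Nat.mul_le_mul_right K hq3
  have hno' := hno
  obtain ⟨m, hm⟩ := hno'
  obtain ⟨m, rfl⟩ : ∃ k, m = k + 1 := ⟨m - 1, by omega⟩
  have ha0 : 1 ≤ a.natAbs := Int.natAbs_pos.2 D.ha
  have hM1 : 1 ≤ M := by rw [hM]; exact ha0.trans (le_max_left _ _)
  have hMR : (1 : ℝ) ≤ M := by exact_mod_cast hM1
  have haM : |a| ≤ (M : ℤ) := by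
    rw [Int.abs_eq_natAbs, hM]
    exact_mod_cast le_max_left _ _
  have hbM : |b| ≤ (M : ℤ) := by
    rw [Int.abs_eq_natAbs, hM]
    exact_mod_cast le_max_right _ _
  rcases le_or_gt (M : ℤ) (4 * |b|) with h4 | h4
  · -- no closeness
    rcases lam_ne D m with h | h
    · exact fin_of hq3 hn hK (by omega) hMR (starA D hno hM1 haM hbM h4 hde (by omega) hl h)
    · exact fin_of hq3 hn hK (by omega) hMR (starA D hno hM1 haM hbM h4 hde (by omega) hl h)
  · -- closeness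
    have hMa : (M : ℤ) = |a| := by
      rw [Int.abs_eq_natAbs] at h4 ⊢
      have h4' : 4 * b.natAbs < M := by exact_mod_cast h4
      rcases le_total a.natAbs b.natAbs with h | h
      · rw [max_eq_right h] at hM
        omega
      · rw [hM, max_eq_left h]
    rcases lt_or_gt_of_ne D.ha with ha | ha
    · have D' := D.neg hno
      have ha' : 0 < -a := by linarith
      have hMa' : (M : ℝ) = ((-a : ℤ) : ℝ) := by
        have : (M : ℤ) = -a := by rw [hMa, abs_of_neg ha]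
        exact_mod_cast congrArg (fun z : ℤ => (z : ℝ)) this
      have hb' : 4 * |(-b)| ≤ -a := by
        rw [abs_neg, ← abs_of_neg ha, ← hMa]
        exact h4.le
      have hde' : (-b).natAbs = d * e := by rw [Int.natAbs_neg, hde]
      rw [hMa'] at hMR ⊢
      rcases lam_ne D' m with h | h
      · exact fin_of hq3 hn hK (by omega) hMR (starB D' hqo ha' hb' hde' (by omega) hl h)
      · exact fin_of hq3 hn hK (by omega) hMR (starB D' hqo ha' hb' hde' (by omega) hl h)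
    · have hMa' : (M : ℝ) = (a : ℝ) := by
        have : (M : ℤ) = a := by rw [hMa, abs_of_pos ha]
        exact_mod_cast congrArg (fun z : ℤ => (z : ℝ)) this
      have hb' : 4 * |b| ≤ a := by
        rw [abs_of_pos ha] at hMa
        rw [← hMa]
        exact h4.le
      rw [hMa'] at hMR ⊢
      rcases lam_ne D m with h | h
      · exact fin_of hq3 hn hK (by omega) hMR (starB D hqo ha hb' hde (by omega) hl h)
      · exact fin_of hq3 hn hK (by omega) hMR (starB D hqo ha hb' hde (by omega) hl h)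

/-- the factorisation -/
theorem factor {n r : ℕ} {x y z c : ℤ} (hno : Odd n) (hro : Odd r)
    (hxy : IsCoprime x y) (hc : c ≠ 0)
    (hcn : ∀ l : ℕ, l.Prime → (l : ℤ) ∣ c → Nat.Coprime n (l * (l - 1)))
    (hnz : IsCoprime (n : ℤ) z) (hz : z ≠ 0) (h : x ^ n + y ^ n = c * z ^ r) :
    x + y ≠ 0 ∧ ∃ f : ℤ, x ^ n + y ^ n = (x + y) * f ^ r := by
  have hX0 : x + y ≠ 0 := by
    intro h0
    have h1 : y = -x := by linarith
    rw [h1, hno.neg_pow, add_neg_cancel] at h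
    exact (mul_ne_zero hc (pow_ne_zero _ hz)) h.symm
  refine ⟨hX0, ?_⟩
  set S : ℤ := ∑ i ∈ range n, x ^ i * (-y) ^ (n - 1 - i) with hS
  have hfac : x ^ n + y ^ n = (x + y) * S := by
    have h1 := Commute.geom_sum₂_mul (Commute.all x (-y)) n
    rw [hno.neg_pow, sub_neg_eq_add, sub_neg_eq_add] at h1
    rw [← h1, mul_comm]
  have hn0 : 0 < n := hno.pos
  -- `S = n x ^ (n - 1)` modulo `x + y`
  have hSmod : ∀ l : ℤ, l ∣ x + y → l ∣ S - n * x ^ (n - 1) := by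
    intro l hl
    have h1 : S - n * x ^ (n - 1) = ∑ i ∈ range n, (x ^ i * (-y) ^ (n - 1 - i) - x ^ (n - 1)) := by
      rw [sum_sub_distrib, sum_const, card_range, nsmul_eq_mul, hS]
    rw [h1]
    refine dvd_sum fun i hi => ?_
    rw [mem_range] at hi
    have h2 : x ^ (n - 1) = x ^ i * x ^ (n - 1 - i) := by rw [← pow_add]; congr 1; omega
    rw [h2, ← mul_sub]
    refine Dvd.dvd.mul_left ?_ _
    have h3 := sub_dvd_pow_sub_pow (-y) x (n - 1 - i)
    refine dvd_trans ?_ h3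
    have : -y - x = -(x + y) := by ring
    rw [this]
    exact (dvd_neg).2 hl
  -- primes dividing `x + y` are prime to `x`
  have hlx : ∀ l : ℤ, Prime l → l ∣ x + y → ¬ l ∣ x := by
    intro l hl h1 h2
    have h3 : l ∣ y := (dvd_add_right h2).1 h1
    exact hl.not_isUnit (hxy.isUnit_of_dvd' h2 h3)
  -- a common prime factor of `x + y` and `S` divides `n`
  have hcom : ∀ l : ℤ, Prime l → l ∣ x + y → l ∣ S → l ∣ (n : ℤ) := by
    intro l hl h1 h2
    have h3 : l ∣ (n : ℤ) * x ^ (n - 1) := by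
      have := dvd_sub h2 (hSmod l h1)
      rwa [sub_sub_cancel] at this
    rcases hl.dvd_or_dvd h3 with h4 | h4
    · exact h4
    · exact absurd (hl.dvd_of_dvd_pow h4) (hlx l hl h1)
  have hncop : ∀ l : ℤ, Prime l → l ∣ (n : ℤ) → ¬ l ∣ c * z ^ r := by
    intro l hl h1 h2
    rcases hl.dvd_or_dvd h2 with h3 | h3
    · -- `l ∣ c`
      have hl' : (l.natAbs).Prime := Int.prime_iff_natAbs_prime.1 hl
      have h4 : (l.natAbs : ℤ) ∣ c := by rwa [Int.natAbs_dvd]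
      have h5 := hcn _ hl' h4
      have h6 : l.natAbs ∣ n := by
        have := Int.natAbs_dvd_natAbs.2 h1
        rwa [Int.natAbs_natCast] at this
      have h7 : l.natAbs ∣ 1 := by
        rw [← Nat.Coprime.gcd_eq_one h5]
        exact Nat.dvd_gcd h6 (dvd_mul_right _ _)
      exact hl'.one_lt.ne' (Nat.dvd_one.1 h7)
    · exact hl.not_isUnit (hnz.isUnit_of_dvd' h1 (hl.dvd_of_dvd_pow h3))
  have hcopXS : IsCoprime (x + y) S := by
    refine isCoprime_of_prime_dvd ?_ ?_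
    · rintro ⟨h1, -⟩
      exact hX0 h1
    · intro l hl h1 h2
      refine hncop l hl (hcom l hl h1 h2) ?_
      rw [← h, hfac]
      exact Dvd.dvd.mul_right h1 _
  have hcopcS : IsCoprime c S := by
    refine isCoprime_of_prime_dvd ?_ ?_
    · rintro ⟨h1, -⟩
      exact hc h1
    · intro l hl h1 h2
      -- `l` divides `x ^ n + y ^ n`, hence `x + y`
      have hl' : (l.natAbs).Prime := Int.prime_iff_natAbs_prime.1 hl
      have hlc : (l.natAbs : ℤ) ∣ c := by rwa [Int.natAbs_dvd]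
      have hco := hcn _ hl' hlc
      have hlZ : ((l.natAbs : ℕ) : ℤ) ∣ x ^ n + y ^ n := by
        rw [Int.natAbs_dvd, hfac]
        exact Dvd.dvd.mul_left h2 _
      have hlx' : ¬ ((l.natAbs : ℕ) : ℤ) ∣ x := by
        intro h3
        have h4 : ((l.natAbs : ℕ) : ℤ) ∣ y ^ n :=
          (dvd_add_right (h3.trans (dvd_pow_self _ hn0.ne'))).1 hlZ
        have hlp : Prime ((l.natAbs : ℕ) : ℤ) := Nat.prime_iff_prime_int.1 hl'
        exact hlp.not_isUnit (hxy.isUnit_of_dvd' h3 (hlp.dvd_of_dvd_pow h4))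
      have hly' : ¬ ((l.natAbs : ℕ) : ℤ) ∣ -y := by
        intro h3
        rw [dvd_neg] at h3
        have h4 : ((l.natAbs : ℕ) : ℤ) ∣ x ^ n :=
          (dvd_add_left (h3.trans (dvd_pow_self _ hn0.ne'))).1 hlZ
        have hlp : Prime ((l.natAbs : ℕ) : ℤ) := Nat.prime_iff_prime_int.1 hl'
        exact hlp.not_isUnit (hxy.isUnit_of_dvd' (hlp.dvd_of_dvd_pow h4) h3)
      have h5 : ((l.natAbs : ℕ) : ℤ) ∣ x - -y := by
        refine root_eq hl' (Nat.Coprime.coprime_mul_left_right hco) hlx' hly' ?_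
        rw [hno.neg_pow, sub_neg_eq_add]
        exact hlZ
      rw [sub_neg_eq_add, Int.natAbs_dvd] at h5
      exact hl.not_isUnit (hcopXS.isUnit_of_dvd' h5 h2)
  -- `S` is an `r`-th power
  have h1 : (x + y) * S = c * z ^ r := by rw [← hfac, h]
  have h2 : c ∣ x + y := by
    have : c ∣ (x + y) * S := by rw [h1]; exact Dvd.intro _ rfl
    exact hcopcS.dvd_of_dvd_mul_right this
  obtain ⟨g, hg⟩ := h2
  have h3 : g * S = z ^ r := by
    rw [hg, mul_assoc] at h1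
    exact mul_left_cancel₀ hc h1
  have h4 : IsCoprime g S := IsCoprime.of_isCoprime_of_dvd_left hcopXS (by rw [hg]; exact Dvd.intro_left _ rfl)
  obtain ⟨-, f, hf⟩ := Int.eq_pow_of_mul_eq_pow_odd h4 hro h3
  exact ⟨f, by rw [hfac, hf]⟩

end Pool.Agent.U792.SU
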