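import Mathlib
import Pool.Agent.U792.SU.Main

/-!
`x ^ n + y ^ n = c z ^ r` with `n ≡ 1` modulo the prime `r`
-/

set_option autoImplicit false

namespace Pool.Agent.U792.SU

open Pool.Agent.U792.FC

theorem final {n r : ℕ} (hr : r.Prime) (hr3 : 3 ≤ r) (hn : Odd n) (hn1 : 1 < n)
    (hnr : n ≡ 1 [MOD r]) {x y z c : ℤ} (hx : x ≠ 0) (hy : y ≠ 0) (hc : c ≠ 0) (hz : z ≠ 0)
    (hxy : IsCoprime x y) (hnz : IsCoprime (n : ℤ) z)
    (hcn : ∀ l : ℕ, l.Prime → (l : ℤ) ∣ c → Nat.Coprime n (l * (l - 1)))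
    (h : x ^ n + y ^ n = c * z ^ r) {d e : ℕ}
    (hd : ∀ l : ℕ, l.Prime → l ∣ d → ¬ l ≡ 0 [MOD r] ∧ ¬ l ≡ 1 [MOD r])
    (hde : x.natAbs = d * e ∨ y.natAbs = d * e) :
    ((max x.natAbs y.natAbs : ℕ) : ℝ) ^ ((1 : ℝ) / 2 - 1 / r) ≤ 32 * r * e := by
  have hro : Odd r := hr.odd_of_ne_two (by omega)
  obtain ⟨hX, f, hf⟩ := factor hn hro hxy hc hcn hnz hz h
  obtain ⟨K, hK⟩ : ∃ K, n = r * K + 1 := by
    have h1 := (Nat.modEq_iff_dvd' hn1.le).1 hnr.symm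
    obtain ⟨K, hK⟩ := h1
    exact ⟨K, by omega⟩
  have hK0 : 0 < K := by
    rcases Nat.eq_zero_or_pos K with h1 | h1
    · rw [h1, mul_zero] at hK
      omega
    · exact h1
  have hl : ∀ l : ℕ, l.Prime → l ∣ d → l ≠ r ∧ ¬ r ∣ l - 1 := by
    intro l hl hld
    obtain ⟨h0, h1⟩ := hd l hl hld
    refine ⟨?_, ?_⟩
    · rintro rfl
      exact h0 ((Nat.modEq_zero_iff_dvd).2 dvd_rfl)
    · intro h2
      exact h1 ((Nat.modEq_iff_dvd' hl.one_lt.le).2 h2).symm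
  have key : ∀ a b : ℤ, a ≠ 0 → b ≠ 0 → IsCoprime a b → a + b ≠ 0 →
      a ^ n + b ^ n = (a + b) * f ^ r → b.natAbs = d * e →
      ((max a.natAbs b.natAbs : ℕ) : ℝ) ^ ((1 : ℝ) / 2 - 1 / r) ≤ 32 * r * e := by
    intro a b h1 h2 h3 h4 h5 h6
    exact main (q := r) (n := n) (K := K) ⟨hr, hK, hK0, h3, h1, h2, h4, h5⟩ hr3 hn rfl h6 hl
  rcases hde with h1 | h1
  · rw [max_comm]
    exact key y x hy hx hxy.symm (by rwa [add_comm]) (by rw [add_comm, add_comm y x]; exact hf) h1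
  · exact key x y hx hy hxy hX hf h1

end Pool.Agent.U792.SU
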